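import Pool.Agent.Run7.h968.TN.Rel

/-!
# Project TN (helper968), piece abs: connecting a subgroup through a finite index subgroup

Modelled on `Pool/Agent/Run7/h957/TN_cost0.lean` (helper957).
-/

set_option autoImplicit false

open MeasureTheory

namespace Run7.h382.TN

open Pool.Agent.W336.CS Pool.Agent.Run7.h968.TN

variable {G : Type} [Group G]

theorem conn_abs (K : Subgroup G) (K' : Subgroup K) (F T : Finset K)
    (hT : Subgroup.closure (T : Set K) = K') (hTF : T ⊆ F)
    (r : K ⧸ K' → K) (hr : ∀ z, ((r z : K) : K ⧸ K') = z) (hrF : ∀ z, r z ∈ F)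
    (y : G → K ⧸ K') (hy : ∀ (s : K) (x : G), y (s * x) = s • y x) (ω : Cfg G)
    (hω : ∀ a : G, ∀ s ∈ F, y a = ((1 : K) : K ⧸ K') → ω (a, (s : G)) = true) (a : G) (s : K) :
    Conn ∅ ω a (s * a) := by
  have edge : ∀ (a : G), ∀ s ∈ F, y a = ((1 : K) : K ⧸ K') → Conn ∅ ω a ((s : G) * a) :=
    fun a s hs ha => Conn.edge (hω a s hs ha)
  have h0 : ∀ a : G, y (((r (y a))⁻¹ : K) * a) = ((1 : K) : K ⧸ K') := by
    intro a
    rw [hy]
    obtain ⟨z, hz⟩ : ∃ z, z = y a := ⟨_, rfl⟩
    rw [← hz]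
    calc (r z)⁻¹ • z = (r z)⁻¹ • ((r z : K) : K ⧸ K') := by rw [hr]
      _ = (((r z)⁻¹ * r z : K) : K ⧸ K') := rfl
      _ = ((1 : K) : K ⧸ K') := by rw [inv_mul_cancel]
  have h1 : ∀ a : G, Conn ∅ ω (((r (y a))⁻¹ : K) * a) a := by
    intro a
    have h2 := edge (((r (y a))⁻¹ : K) * a) (r (y a)) (hrF _) (h0 a)
    have h3 : ((r (y a) : K) : G) * ((((r (y a))⁻¹ : K) : G) * a) = a := by
      push_cast
      rw [mul_inv_cancel_left]
    rwa [h3] at h2
  have hH : ∀ u ∈ K', ∀ a : G, y a = ((1 : K) : K ⧸ K') →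
      y ((u : G) * a) = ((1 : K) : K ⧸ K') := by
    intro u hu a ha
    rw [hy, ha]
    show ((u * 1 : K) : K ⧸ K') = _
    rw [QuotientGroup.eq, mul_one, mul_one]
    exact K'.inv_mem hu
  have h2 : ∀ u ∈ Subgroup.closure (T : Set K), ∀ a : G, y a = ((1 : K) : K ⧸ K') →
      Conn ∅ ω a ((u : G) * a) := by
    intro u hu
    induction hu using Subgroup.closure_induction with
    | mem x hx => exact fun a ha => edge a x (hTF hx) ha
    | one =>
      intro a _
      rw [OneMemClass.coe_one, one_mul]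
      exact Conn.refl _ _ _
    | mul x z hx hz ihx ihz =>
      intro a ha
      rw [Subgroup.coe_mul, mul_assoc]
      exact (ihz a ha).trans (ihx (z * a) (hH z (hT ▸ hz) a ha))
    | inv x hx ih =>
      intro a ha
      have h3 := ih (((x⁻¹ : K) : G) * a) (hH x⁻¹ (K'.inv_mem (hT ▸ hx)) a ha)
      have h4 : (x : G) * (((x⁻¹ : K) : G) * a) = a := by
        push_cast
        rw [mul_inv_cancel_left]
      rw [h4] at h3
      exact h3.symm
  obtain ⟨p, hp⟩ : ∃ p, p = (r (y a))⁻¹ := ⟨_, rfl⟩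
  obtain ⟨q, hq⟩ : ∃ q, q = (r (y ((s : G) * a)))⁻¹ := ⟨_, rfl⟩
  have ha1 := h0 a
  have hb1 := h0 ((s : G) * a)
  have ha2 := h1 a
  have hb2 := h1 ((s : G) * a)
  rw [← hp] at ha1 ha2
  rw [← hq] at hb1 hb2
  have e1 : ((q * s * p⁻¹ : K) : G) * ((p : G) * a) = (q : G) * ((s : G) * a) := by
    push_cast
    group
  have hu : q * s * p⁻¹ ∈ K' := by
    have h4 : (q * s * p⁻¹) • ((1 : K) : K ⧸ K') = ((1 : K) : K ⧸ K') := by
      rw [← ha1, ← hy, e1, hb1, ha1]
    have h5 : ((q * s * p⁻¹ * 1 : K) : K ⧸ K') = ((1 : K) : K ⧸ K') := h4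
    rw [QuotientGroup.eq, mul_one, mul_one] at h5
    have h6 := K'.inv_mem h5
    rwa [inv_inv] at h6
  have h7 := h2 (q * s * p⁻¹) (by rw [hT]; exact hu) ((p : G) * a) ha1
  rw [e1] at h7
  exact ha2.symm.trans (h7.trans hb2)

theorem t_abs (h : P_coind) : P_abs := by
  classical
  intro G _ _ K K' T hfin hT
  obtain ⟨Ω, mΩ, P, hP, τ, y, hτ, hmeas, hyτ, hys, hPz⟩ := h G K K' hfin
  have : Finite (K ⧸ K') := Subgroup.finite_quotient_of_finiteIndex
  let _ : Fintype (K ⧸ K') := Fintype.ofFinite _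
  obtain ⟨r, hr⟩ : ∃ r : K ⧸ K' → K, ∀ z, ((r z : K) : K ⧸ K') = z :=
    ⟨fun z => z.out, fun z => QuotientGroup.out_eq' z⟩
  obtain ⟨F, hF⟩ : ∃ F : Finset K, F = T ∪ Finset.univ.image r := ⟨_, rfl⟩
  have hidx : K'.index = Fintype.card (K ⧸ K') := by
    rw [Subgroup.index_eq_card, Nat.card_eq_fintype_card]
  have hidx0 : (K'.index : ENNReal) ≠ 0 := by
    exact_mod_cast hfin.index_ne_zero
  -- the random configuration
  let c : Ω → Cfg G := fun w e => decide (y e.1 w = ((1 : K) : K ⧸ K') ∧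
    ∃ s ∈ F, (s : G) = e.2)
  have hc : ∀ w a g, c w (a, g) = true ↔ y a w = ((1 : K) : K ⧸ K') ∧
      ∃ s ∈ F, (s : G) = g := by
    intro w a g
    simp [c]
  have hcm : Measurable c := by
    refine measurable_pi_lambda _ fun e => measurable_to_bool ?_
    have e1 : (fun w => c w e) ⁻¹' {true} = {w | y e.1 w = ((1 : K) : K ⧸ K')} ∩
        {_w | ∃ s ∈ F, (s : G) = e.2} := by
      ext w
      show c w e = true ↔ _
      rw [show e = (e.1, e.2) from rfl, hc]
      rfl
    rw [e1]
    exact (hmeas _ _).inter (MeasurableSet.const _)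
  refine ⟨P.map c, Measure.isProbabilityMeasure_map hcm.aemeasurable, ?_, ?_, ?_⟩
  · intro g
    rw [Measure.map_map (measurable_shift g) hcm]
    have e1 : shift g ∘ c = c ∘ τ g := by
      funext w
      funext e
      show c w (e.1 * g, e.2) = c (τ g w) e
      have e2 : c w (e.1 * g, e.2) = true ↔ c (τ g w) (e.1, e.2) = true := by
        rw [hc, hc, hyτ]
      exact Bool.eq_iff_iff.2 e2
    rw [e1, ← Measure.map_map hcm (hτ g).measurable, (hτ g).map_eq]
  · have h1 : ∀ g : G, (P.map c) {ω | ω (1, g) = true} =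
        if g ∈ F.image (fun s : K => (s : G)) then (K'.index : ENNReal)⁻¹ else 0 := by
      intro g
      have hm : MeasurableSet {ω : Cfg G | ω (1, g) = true} :=
        measurableSet_eq_fun (measurable_pi_apply _) measurable_const
      rw [Measure.map_apply hcm hm]
      by_cases hg : g ∈ F.image (fun s : K => (s : G))
      · rw [if_pos hg, ← hPz ((1 : K) : K ⧸ K')]
        congr 1
        ext w
        show c w (1, g) = true ↔ _
        rw [hc]
        exact ⟨fun h => h.1, fun h => ⟨h, by simpa using hg⟩⟩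
      · rw [if_neg hg]
        have e1 : c ⁻¹' {ω | ω (1, g) = true} = ∅ := by
          ext w
          show c w (1, g) = true ↔ _
          rw [hc]
          constructor
          · intro h
            exact hg (by simpa using h.2)
          · intro h
            exact absurd h (Set.notMem_empty _)
        rw [e1, measure_empty]
    unfold cost
    simp only [h1]
    rw [tsum_eq_sum (s := F.image (fun s : K => (s : G))) (fun s hs => if_neg hs),
      Finset.sum_congr rfl fun s hs => if_pos hs, Finset.sum_const, nsmul_eq_mul]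
    have h2 : (F.image (fun s : K => (s : G))).card ≤ T.card + Fintype.card (K ⧸ K') := by
      refine Finset.card_image_le.trans ?_
      rw [hF]
      refine (Finset.card_union_le _ _).trans (Nat.add_le_add_left ?_ _)
      exact Finset.card_image_le
    have h3 : ((F.image (fun s : K => (s : G))).card : ENNReal) ≤
        (T.card : ENNReal) + (K'.index : ENNReal) := by
      rw [hidx]
      exact_mod_cast h2
    calc ((F.image (fun s : K => (s : G))).card : ENNReal) * (K'.index : ENNReal)⁻¹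
        ≤ ((T.card : ENNReal) + (K'.index : ENNReal)) * (K'.index : ENNReal)⁻¹ :=
          mul_le_mul_left h3 _
      _ = 1 + (T.card : ENNReal) / (K'.index : ENNReal) := by
        rw [add_mul, ENNReal.mul_inv_cancel hidx0 (ENNReal.natCast_ne_top _), add_comm,
          ENNReal.div_eq_inv_mul, mul_comm]
  · have hms : MeasurableSet {ω : Cfg G | ∀ g : G, ∀ s ∈ (K : Set G), Conn ∅ ω g (s * g)} := by
      have e1 : {ω : Cfg G | ∀ g : G, ∀ s ∈ (K : Set G), Conn ∅ ω g (s * g)} =
          ⋂ g : G, ⋂ s : K, {ω : Cfg G | Conn ∅ ω g ((s : G) * g)} := by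
        ext ω
        simp only [Set.mem_iInter, Set.mem_ofPred_eq]
        exact ⟨fun h g s => h g s s.2, fun h g s hs => h g ⟨s, hs⟩⟩
      rw [e1]
      exact MeasurableSet.iInter fun g => MeasurableSet.iInter fun s => measurableSet_conn _ _ _
    rw [ae_map_iff hcm.aemeasurable hms]
    refine Filter.Eventually.of_forall fun w g s hs => ?_
    refine conn_abs K K' F T hT ?_ r hr ?_ (fun a => y a w) (fun s x => hys s x w) (c w) ?_ g ⟨s, hs⟩
    · rw [hF]
      exact Finset.subset_union_left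
    · intro z
      rw [hF]
      exact Finset.mem_union_right _ (Finset.mem_image_of_mem _ (Finset.mem_univ z))
    · intro a t ht ha
      exact (hc w a t).2 ⟨ha, t, ht, rfl⟩

end Run7.h382.TN
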